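import Pool.Agent.Y588.LN.Top

set_option autoImplicit false

/-!
# Reflection of hyperarithmetic randomness implies Luzin's property (N), beyond computable functions

The starting file `ReflectionImpliesN` shows that every *computable* real function which reflects
`Δ¹₁`-randomness has Luzin's property (N). Here the function is only required to be `Δ¹₁` in an
oracle `h` (the sets `{f < q}`, `q` rational, are uniformly `Δ¹₁(h)`), it need not be continuous, and
the randomness notion is `Δ¹₁(h)`-randomness for the same oracle. Continuity is replaced by a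
condition on almost all fibres: the fibre is countable, or closed up to a countable set. The
condition holds if `f` has at most countably many points of discontinuity.

Idea of the proof. Disintegrate Lebesgue measure on a bounded `Δ¹₁(h)` set `S` along the fibres of
`f`, and call a point of `S` diffuse if it is not an atom of the measure of its fibre. The diffuse
points `x` for which the fibre measure of the diffuse points below `x` lies in a fixed uncountable
closed null set `C` of numbers form a null set `N`, which is `Δ¹₁(h)`. If the diffuse part of a fibre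
`E` in `S` has positive measure, then each small enough number in `C` is the fibre measure of the
diffuse points below some point of the closure of `E`, and different numbers belong to different
points; so, if `E` is closed up to a countable set, one of these points belongs to `E`. Therefore
almost every `y` whose fibre has a diffuse point in `S` belongs to the image of `N`, which is a null
set by the reflection of randomness.
-/

namespace Pool.Agent.Results.MP_a8cc1b_lc.DeltaFunctions

open MeasureTheory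

/-- The rational number `(a - b) / (c + 1)` coded by `n = pair a (pair b c)`; every rational number
has a code. -/
noncomputable def ratOf (n : ℕ) : ℝ :=
  ((n.unpair.1 : ℝ) - n.unpair.2.unpair.1) / ((n.unpair.2.unpair.2 : ℝ) + 1)

/-- `p` is a name of `x`: a sequence of (codes of) rationals that converges fast to `x`. -/
def IsName (p : ℕ → ℕ) (x : ℝ) : Prop := ∀ n, |ratOf (p n) - x| ≤ (1/2)^n

/-- The function `F` is computable with the oracle `h`. -/
def RecIn (h F : ℕ → ℕ) : Prop :=
  Nat.RecursiveIn {fun n => Part.some (h n)} (fun n => Part.some (F n))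

/-- The code of the finite sequence `H 0, …, H (n - 1)`. -/
def code (n : ℕ) (H : ℕ → ℕ) : ℕ := Encodable.encode ((List.range n).map H)

/-- The sequence `A` of sets of reals is `Σ¹₁(h)`: there is a sequence of trees, computable with the
oracle `h`, such that, for every name `p` of a real `x`, `x` is in `A k` iff for some `g` all
initial segments of the pair `(p, g)` are in the tree with the number `k`. -/
def Sigma11 (h : ℕ → ℕ) (A : ℕ → Set ℝ) : Prop := ∃ T : ℕ → ℕ, RecIn h T ∧
  ∀ (k : ℕ) (p : ℕ → ℕ) (x : ℝ), IsName p x →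
    (x ∈ A k ↔ ∃ g : ℕ → ℕ, ∀ n, T (Nat.pair k (code n fun i => Nat.pair (p i) (g i))) = 1)

/-- `Δ¹₁(h)` sequences of sets of reals. -/
def Delta11 (h : ℕ → ℕ) (A : ℕ → Set ℝ) : Prop := Sigma11 h A ∧ Sigma11 h (fun k => (A k)ᶜ)

/-- `Δ¹₁(h)` sets of reals. -/
def Delta11Set (h : ℕ → ℕ) (A : Set ℝ) : Prop := Delta11 h (fun _ => A)

/-- `Δ¹₁(h)` functions, not necessarily continuous: the sets `{x | f x < q}`, `q` rational, are
`Δ¹₁(h)` uniformly in (the code of) `q`. -/
def DeltaFunction (h : ℕ → ℕ) (f : ℝ → ℝ) : Prop := Delta11 h (fun k => {x | f x < ratOf k})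

/-- Real functions computable with the oracle `h`: there is a function `Φ`, computable with the
oracle `h`, such that, given any name `p` of any real `x` and `n`, the first initial segment of `p`
at which `Φ` gives a nonzero value `q n + 1` determines the term `q n` of a name of `f x`. -/
def ComputableReal (h : ℕ → ℕ) (f : ℝ → ℝ) : Prop := ∃ Φ : ℕ → ℕ, RecIn h Φ ∧
  ∀ p x, IsName p x → ∃ q, IsName q (f x) ∧
    ∀ n, ∃ k, Φ (Nat.pair (code k p) n) = q n + 1 ∧ ∀ j < k, Φ (Nat.pair (code j p) n) = 0

/-- `x` is `Δ¹₁(h)`-random: it lies in no `Δ¹₁(h)` set of Lebesgue measure zero. -/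
def DeltaRandom (h : ℕ → ℕ) (x : ℝ) : Prop := ∀ N : Set ℝ, Delta11Set h N → volume N = 0 → x ∉ N

/-- `f` reflects `Δ¹₁(h)`-randomness. -/
def Reflects (h : ℕ → ℕ) (f : ℝ → ℝ) : Prop := ∀ x, DeltaRandom h (f x) → DeltaRandom h x

/-- Luzin's property (N): images of null sets are null. -/
def LuzinN (f : ℝ → ℝ) : Prop := ∀ N : Set ℝ, volume N = 0 → volume (f '' N) = 0

/-- The set `E` of reals is countable, or closed up to a countable set. -/
def NearlyClosed (E : Set ℝ) : Prop := E.Countable ∨ (closure E \ E).Countable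

/-- `S` is a sequence of `Δ¹₁(h)` sets, covering a `Δ¹₁(h)` set with null complement, such that for
almost every `y` the part in `S n` of the fibre `f⁻¹(y)` is countable or closed up to a countable
set. -/
structure Decomposition (h : ℕ → ℕ) (f : ℝ → ℝ) (S : ℕ → Set ℝ) : Prop where
  delta : ∀ n, Delta11Set h (S n)
  deltaUnion : Delta11Set h (⋃ n, S n)
  null : volume (⋃ n, S n)ᶜ = 0
  fibre : ∀ n, ∀ᵐ y ∂(volume : Measure ℝ), NearlyClosed (S n ∩ f ⁻¹' {y})

open Pool.Agent.Y588.LN (Orc OO DelR HypF CompF ll lr NN delR_NN delR_of tree_of measurable_of_delR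
  delR_lt countable_recT exists_name)
open Set

/-- the oracle as a parameter of the calculus -/
abbrev orc (h : ℕ → ℕ) : Orc := ⟨{fun n => Part.some (h n)}⟩

theorem delR_of_delta {h : ℕ → ℕ} {A : ℕ → Set ℝ} (hA : Delta11 h A) :
    @DelR (orc h) (fun k x => x ∈ A k) := by
  obtain ⟨⟨T, hT, h1⟩, ⟨T', hT', h2⟩⟩ := hA
  letI : Orc := orc h
  exact delR_of hT hT' h1 h2

theorem delta_of_delR {h : ℕ → ℕ} {A : ℕ → Set ℝ} (hA : @DelR (orc h) (fun k x => x ∈ A k)) :
    Delta11 h A := by
  letI : Orc := orc h
  refine ⟨?_, ?_⟩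
  · obtain ⟨T, hT, h1⟩ := tree_of (P := fun k x => x ∈ A k) hA.1
    exact ⟨T, hT, h1⟩
  · obtain ⟨T, hT, h1⟩ := tree_of (P := fun k x => ¬ x ∈ A k) hA.not.1
    exact ⟨T, hT, h1⟩

theorem Delta11Set.compl {h : ℕ → ℕ} {A : Set ℝ} (hA : Delta11Set h A) : Delta11Set h Aᶜ := by
  refine ⟨hA.2, ?_⟩
  have := hA.1
  simpa [compl_compl] using this

/-- there are only countably many `Δ¹₁(h)` sets -/
theorem countable_delta (h : ℕ → ℕ) : {A : Set ℝ | Delta11Set h A}.Countable := by
  have h1 : ∀ A ∈ {A : Set ℝ | Delta11Set h A}, ∃ T : ℕ → ℕ, RecIn h T ∧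
      ∀ (p : ℕ → ℕ) (x : ℝ), IsName p x → (x ∈ A ↔ ∃ g : ℕ → ℕ, ∀ n,
        T (Nat.pair 0 (code n fun i => Nat.pair (p i) (g i))) = 1) := by
    rintro A ⟨⟨T, hT, hA⟩, _⟩
    exact ⟨T, hT, fun p x hx => hA 0 p x hx⟩
  choose! T hT using h1
  refine Set.MapsTo.countable_of_injOn (f := T) (t := {F : ℕ → ℕ | RecIn h F})
    (fun A hA => (hT A hA).1) ?_ (countable_recT (Set.countable_singleton _))
  intro A hA B hB hAB
  ext x
  obtain ⟨p, hp⟩ := @exists_name (orc h) x
  have hx : IsName p x := fun n => (hp n).le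
  rw [(hT A hA).2 p x hx, (hT B hB).2 p x hx, hAB]

theorem null_nonrandom (h : ℕ → ℕ) : volume {y : ℝ | ¬ DeltaRandom h y} = 0 := by
  have hc : {A : Set ℝ | Delta11Set h A ∧ volume A = 0}.Countable :=
    (countable_delta h).mono fun A hA => hA.1
  have hsub : {y : ℝ | ¬ DeltaRandom h y} ⊆
      ⋃ A ∈ {A : Set ℝ | Delta11Set h A ∧ volume A = 0}, A := by
    intro y hy
    simp only [DeltaRandom, mem_ofPred_eq, not_forall, not_not] at hy
    obtain ⟨N, h1, h2, h3⟩ := hy
    exact mem_biUnion (x := N) ⟨h1, h2⟩ h3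
  exact measure_mono_null hsub ((measure_biUnion_null_iff hc).2 fun A hA => hA.2)

theorem image_null {h : ℕ → ℕ} {f : ℝ → ℝ} (hr : Reflects h f) {N : Set ℝ}
    (hN : Delta11Set h N) (hN0 : volume N = 0) : volume (f '' N) = 0 := by
  refine measure_mono_null ?_ (null_nonrandom h)
  rintro _ ⟨x, hx, rfl⟩ hrand
  exact hr x hrand _ hN hN0 hx

theorem NearlyClosed.inter {E K : Set ℝ} (hE : NearlyClosed E) (hK : IsClosed K) :
    NearlyClosed (K ∩ E) := by
  rcases hE with hE | hE
  · exact Or.inl (hE.mono inter_subset_right)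
  · refine Or.inr (hE.mono ?_)
    rintro x ⟨hx1, hx2⟩
    have h1 : x ∈ K := hK.closure_eq ▸ closure_mono inter_subset_left hx1
    exact ⟨closure_mono inter_subset_right hx1, fun hxE => hx2 ⟨h1, hxE⟩⟩

theorem main {h : ℕ → ℕ} {f : ℝ → ℝ} (hf : DeltaFunction h f) {S : ℕ → Set ℝ}
    (hS : Decomposition h f S) (hr : Reflects h f) : LuzinN f := by
  intro A hA
  letI : Orc := orc h
  have hF : HypF f := HypF.of_lt (delR_of_delta hf)
  have hSD : ∀ n, DelR (fun _ x => x ∈ S n) := fun n => delR_of_delta (hS.delta n)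
  have key : ∀ n : ℕ, ∀ k0 : ℤ, volume (f '' (A ∩ (Icc (k0:ℝ) (k0+1) ∩ S n))) = 0 := by
    intro n k0
    have hSm : MeasurableSet (S n) := measurable_of_delR (hSD n) 0
    have hres : lr k0 (S n) = volume.restrict (Icc (k0:ℝ) (k0+1) ∩ S n) := by
      unfold lr ll
      rw [Measure.restrict_restrict hSm, inter_comm]
    have hm : MeasurableSet (Icc (k0:ℝ) (k0+1) ∩ S n) := measurableSet_Icc.inter hSm
    have hl : lr k0 (S n) (Icc (k0:ℝ) (k0+1) ∩ S n)ᶜ = 0 := by
      rw [hres, Measure.restrict_apply' hm, compl_inter_self, measure_empty]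
    have hD : ∀ᵐ y ∂(volume : Measure ℝ),
        NearlyClosed ((Icc (k0:ℝ) (k0+1) ∩ S n) ∩ f ⁻¹' {y}) := by
      filter_upwards [hS.fibre n] with y hy
      rw [inter_assoc]
      exact hy.inter isClosed_Icc
    have hN0 : volume (NN f (lr k0 (S n)) (Icc (k0:ℝ) (k0+1) ∩ S n)) = 0 := by
      have h1 := Pool.Agent.Y588.LN.NN_null (l := lr k0 (S n)) hF.me hm hl
      have h2 : NN f (lr k0 (S n)) (Icc (k0:ℝ) (k0+1) ∩ S n) ∩ (Icc (k0:ℝ) (k0+1) ∩ S n) =
          NN f (lr k0 (S n)) (Icc (k0:ℝ) (k0+1) ∩ S n) :=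
        inter_eq_left.2 fun x hx => hx.1.1
      rw [hres, Measure.restrict_apply' hm, ← hres, h2] at h1
      exact h1
    have hDN : Delta11Set h (NN f (lr k0 (S n)) (Icc (k0:ℝ) (k0+1) ∩ S n)) :=
      delta_of_delR (delR_NN hF k0 (hSD n) hSm)
    have hN := image_null hr hDN hN0
    refine Pool.Agent.Y588.LN.luzin (l := lr k0 (S n)) hF.me hm hD hl hN inter_subset_right ?_
    rw [hres]
    exact Measure.absolutelyContinuous_of_le Measure.restrict_le_self
      (measure_mono_null inter_subset_left hA)
  have hrest : volume (f '' (⋃ n, S n)ᶜ) = 0 := image_null hr hS.deltaUnion.compl hS.null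
  have hU : f '' A ⊆ (⋃ n : ℕ, ⋃ k0 : ℤ, f '' (A ∩ (Icc (k0:ℝ) (k0+1) ∩ S n))) ∪
      f '' (⋃ n, S n)ᶜ := by
    rintro _ ⟨x, hx, rfl⟩
    by_cases hxS : x ∈ ⋃ n, S n
    · obtain ⟨n, hn⟩ := mem_iUnion.1 hxS
      refine Or.inl (mem_iUnion.2 ⟨n, mem_iUnion.2 ⟨⌊x⌋, x, ⟨hx, ?_, hn⟩, rfl⟩⟩)
      exact ⟨Int.floor_le x, (Int.lt_floor_add_one x).le⟩
    · exact Or.inr ⟨x, hxS, rfl⟩
  refine measure_mono_null hU (measure_union_null ?_ hrest)
  exact measure_iUnion_null fun n => measure_iUnion_null fun k0 => key n k0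

theorem delta_univ (h : ℕ → ℕ) : Delta11Set h univ := by
  letI : Orc := orc h
  refine delta_of_delR (A := fun _ => univ) ?_
  exact Pool.Agent.Y588.LN.delR_true.congr fun k x => by simp

theorem delta_of_computable {h : ℕ → ℕ} {f : ℝ → ℝ} (hf : ComputableReal h f) :
    DeltaFunction h f ∧ Continuous f := by
  letI : Orc := orc h
  have hc : CompF f := hf
  refine ⟨delta_of_delR ?_, hc.continuous⟩
  exact delR_lt hc (c := fun k => k) Pool.Agent.H166R3.HD.recT_id

theorem fibre_case {h : ℕ → ℕ} {f : ℝ → ℝ} (hf : DeltaFunction h f)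
    (hc : ∀ᵐ y ∂(volume : Measure ℝ), NearlyClosed (f ⁻¹' {y})) (hr : Reflects h f) :
    LuzinN f := by
  refine main hf (S := fun _ => univ) ⟨fun _ => delta_univ h, ?_, ?_, fun _ => ?_⟩ hr
  · rw [iUnion_const]; exact delta_univ h
  · rw [iUnion_const, compl_univ, measure_empty]
  · simpa using hc

theorem nearlyClosed_of_countable {f : ℝ → ℝ} (hc : {x | ¬ ContinuousAt f x}.Countable) (y : ℝ) :
    NearlyClosed (f ⁻¹' {y}) := by
  refine Or.inr (hc.mono ?_)
  rintro x ⟨hx1, hx2⟩ hcont
  apply hx2
  have h1 : x ∈ closure (univ ∩ f ⁻¹' {y}) := by rwa [univ_inter]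
  exact Pool.Agent.Y588.LN.eq_of_closure h1 hcont.continuousWithinAt

/-- **Reflection of `Δ¹₁(h)`-randomness implies Luzin's property (N)**, for every oracle `h`.

(1) Let `f` be a `Δ¹₁(h)` real function, and let there be `Δ¹₁(h)` sets `S n`, covering a `Δ¹₁(h)` set
with null complement, such that for almost every `y` the part in `S n` of the fibre of `y` is
countable or closed up to a countable set. If `f` reflects `Δ¹₁(h)`-randomness, then `f` has Luzin's
property (N).
(2) In particular this holds for all `Δ¹₁(h)` functions almost all of whose fibres are countable or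
closed up to a countable set.
(3) It holds for all `Δ¹₁(h)` functions with at most countably many points of discontinuity.
(4) It holds for all functions that are computable with the oracle `h`.
(5) If `h` is computable, then the functions computable with the oracle `h` are the computable ones;
so (4) answers the question. -/
theorem result :
    (∀ (h : ℕ → ℕ) (f : ℝ → ℝ), DeltaFunction h f → (∃ S : ℕ → Set ℝ, Decomposition h f S) →
      Reflects h f → LuzinN f) ∧
    (∀ (h : ℕ → ℕ) (f : ℝ → ℝ), DeltaFunction h f →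
      (∀ᵐ y ∂(volume : Measure ℝ), NearlyClosed (f ⁻¹' {y})) → Reflects h f → LuzinN f) ∧
    (∀ (h : ℕ → ℕ) (f : ℝ → ℝ), DeltaFunction h f → {x | ¬ ContinuousAt f x}.Countable →
      Reflects h f → LuzinN f) ∧
    (∀ (h : ℕ → ℕ) (f : ℝ → ℝ), ComputableReal h f → Reflects h f → LuzinN f) ∧
    (∀ h F : ℕ → ℕ, Computable h → (RecIn h F ↔ Computable F)) := by
  refine ⟨fun h f hf ⟨S, hS⟩ hr => main hf hS hr, fun h f hf hc hr => fibre_case hf hc hr,
    fun h f hf hc hr => fibre_case hf (ae_of_all _ (nearlyClosed_of_countable hc)) hr,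
    fun h f hf hr => ?_, fun h F hh => ⟨fun hF => ?_, fun hF => ?_⟩⟩
  · obtain ⟨h1, h2⟩ := delta_of_computable hf
    refine fibre_case h1 (ae_of_all _ (nearlyClosed_of_countable ?_)) hr
    have : {x | ¬ ContinuousAt f x} = ∅ := by
      ext x; simpa using h2.continuousAt
    rw [this]; exact Set.countable_empty
  · have h1 : Nat.Partrec (fun n => Part.some (F n)) := by
      refine Nat.RecursiveIn.partrec_of_oracle (fun g hg => ?_) hF
      have hg' : g = fun n => Part.some (h n) := hg
      rw [hg']
      exact Partrec.nat_iff.1 hh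
    exact Partrec.nat_iff.2 h1
  · exact Pool.Agent.Helper743.Computable.recT hF

end Pool.Agent.Results.MP_a8cc1b_lc.DeltaFunctions
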